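import Pool.Graph.R_pool_sql_team_seeded_47a924f7.T6.H97.TM.RED
import Pool.Graph.R_pool_sql_team_seeded_47a924f7.T6.H97.TM.L1
import Pool.Graph.R_pool_sql_team_seeded_47a924f7.T6.H97.TM.RAM
import Pool.Graph.R_pool_sql_team_seeded_47a924f7.T6.H97.TM.PHI2
import Pool.Graph.R_pool_sql_team_seeded_47a924f7.T6.H97.TM.PIV
import Pool.Graph.R_pool_sql_team_seeded_47a924f7.T6.H97.TM.CHD
import Pool.Graph.R_pool_sql_team_seeded_47a924f7.T6.H97.TM.HIT
import Pool.Graph.R_pool_sql_team_seeded_47a924f7.T6.H97.TM.Fin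

set_option autoImplicit false

/-! Explicit polynomial bound for graphs of bounded induced matching treewidth. -/

namespace Pool.Agent.KS6_36.TMU

open Pool.Agent.T6.H97.TM Finset

/-- The graph `G` has a tree decomposition (over a finite tree with at least one node) in which,
for every bag, every induced matching of `G` all of whose edges meet the bag has at most `k`
edges; that is, the induced matching treewidth of `G` is at most `k`. An induced matching is
given by the set `S` of its ends: every vertex of `S` has exactly one neighbour in `S`. -/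
def TreeMuLE {V : Type} (G : SimpleGraph V) (k : ℕ) : Prop :=
  ∃ n : ℕ, ∃ T : SimpleGraph (Fin n), ∃ bag : Fin n → Finset V,
    T.IsTree ∧
    (∀ v : V, ∃ i : Fin n, v ∈ bag i) ∧
    (∀ u v : V, G.Adj u v → ∃ i : Fin n, u ∈ bag i ∧ v ∈ bag i) ∧
    (∀ v : V, ∀ i j : Fin n, v ∈ bag i → v ∈ bag j →
      ∃ p : T.Walk i j, ∀ x ∈ p.support, v ∈ bag x) ∧
    (∀ i : Fin n, ∀ S : Finset V,
      (∀ v ∈ S, ∃! u : V, u ∈ S ∧ G.Adj v u) →
      (∀ v ∈ S, ∃ u ∈ S, G.Adj v u ∧ (v ∈ bag i ∨ u ∈ bag i)) →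
      S.card ≤ 2 * k)

/-- The exponent. -/
def ex : ℕ → ℕ
  | 0 => 0
  | k + 1 => ex k + (3 * k + 5)

theorem ex_eq (k : ℕ) : ex k = k * (3 * k + 7) / 2 := by
  have h : 2 * ex k = k * (3 * k + 7) := by
    induction k with
    | zero => rfl
    | succ k ih =>
      rw [ex, mul_add, ih]
      ring
  omega

theorem FF_le (k : ℕ) : ∀ w : ℕ, FF k w ≤ (w + 1) ^ ex k := by
  induction k with
  | zero =>
    intro w
    rw [FF, ex, pow_zero]
    split_ifs <;> omega
  | succ k ihk =>
    have hsum : ∀ w : ℕ, FF (k + 1) w ≤ w * (w + 1) ^ (ex k + (3 * k + 4)) := by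
      intro w
      induction w with
      | zero => simp [FF]
      | succ w ihw =>
        rw [FF]
        have h1 : w * (w + 1) ^ (ex k + (3 * k + 4)) ≤ w * (w + 2) ^ (ex k + (3 * k + 4)) :=
          Nat.mul_le_mul_left _ (Nat.pow_le_pow_left (by omega) _)
        have h2 : 1 + w * FF k (w + 1) ≤ (w + 2) ^ (ex k + 1) := by
          have h3 := ihk (w + 1)
          have h4 : 1 ≤ (w + 2) ^ ex k := Nat.one_le_pow _ _ (by omega)
          calc 1 + w * FF k (w + 1) ≤ (w + 2) ^ ex k + w * (w + 2) ^ ex k :=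
                Nat.add_le_add h4 (Nat.mul_le_mul_left _ h3)
            _ = (w + 1) * (w + 2) ^ ex k := by ring
            _ ≤ (w + 2) * (w + 2) ^ ex k := Nat.mul_le_mul_right _ (by omega)
            _ = (w + 2) ^ (ex k + 1) := by ring
        have h5 : ((w + 2) ^ (k + 1)) ^ 3 * (1 + w * FF k (w + 1)) ≤
            (w + 2) ^ (ex k + (3 * k + 4)) := by
          calc ((w + 2) ^ (k + 1)) ^ 3 * (1 + w * FF k (w + 1))
              ≤ ((w + 2) ^ (k + 1)) ^ 3 * (w + 2) ^ (ex k + 1) := Nat.mul_le_mul_left _ h2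
            _ = (w + 2) ^ (ex k + (3 * k + 4)) := by
                rw [← pow_mul, ← pow_add]
                congr 1
                ring
        calc FF (k + 1) w + ((w + 2) ^ (k + 1)) ^ 3 * (1 + w * FF k (w + 1))
            ≤ w * (w + 2) ^ (ex k + (3 * k + 4)) + (w + 2) ^ (ex k + (3 * k + 4)) :=
              Nat.add_le_add (ihw.trans h1) h5
          _ = (w + 1) * (w + 1 + 1) ^ (ex k + (3 * k + 4)) := by ring
    intro w
    calc FF (k + 1) w ≤ w * (w + 1) ^ (ex k + (3 * k + 4)) := hsum w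
      _ ≤ (w + 1) * (w + 1) ^ (ex k + (3 * k + 4)) := Nat.mul_le_mul_right _ (by omega)
      _ = (w + 1) ^ ex (k + 1) := by
        rw [ex, show ex k + (3 * k + 5) = ex k + (3 * k + 4) + 1 by ring, pow_succ]
        ring

theorem colorable {V : Type} [Finite V] (G : SimpleGraph V) (k w : ℕ)
    (hw : G.CliqueFree (w + 1)) (h : TreeMuLE G k) :
    G.Colorable ((w + 1) ^ (k * (3 * k + 7) / 2)) := by
  classical
  cases nonempty_fintype V
  obtain ⟨n, T, bag, hT, hcov, hedge, hint, hmu⟩ := h
  obtain ⟨par, rk, hconn⟩ := conn_of_tree hT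
  let B : V → Finset (Fin n) := fun v => Finset.univ.filter (fun i => v ∈ bag i)
  have hmemB : ∀ v i, i ∈ B v ↔ v ∈ bag i := fun v i => by simp [B]
  have hgood : Good par rk G w k Finset.univ B := by
    refine ⟨?_, ?_, ?_, ?_⟩
    · intro v _
      apply hconn (B v)
      · obtain ⟨i, hi⟩ := hcov v
        exact ⟨i, (hmemB v i).2 hi⟩
      · intro i hi j hj
        obtain ⟨p, hp⟩ := hint v i j ((hmemB v i).1 hi) ((hmemB v j).1 hj)
        exact ⟨p, fun x hx => (hmemB v x).2 (hp x hx)⟩
    · intro u _ v _ huv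
      obtain ⟨i, hi1, hi2⟩ := hedge u v huv
      exact ⟨i, Finset.mem_inter.2 ⟨(hmemB u i).2 hi1, (hmemB v i).2 hi2⟩⟩
    · intro i S _ hS1 hS2
      exact hmu i S hS1 (by
        intro v hv
        obtain ⟨u, hu, huv, hor⟩ := hS2 v hv
        refine ⟨u, hu, huv, ?_⟩
        rcases hor with h1 | h1
        · exact Or.inl ((hmemB v i).1 h1)
        · exact Or.inr ((hmemB u i).1 h1))
    · intro s _ hs
      by_contra hcon
      obtain ⟨t, hts, htc⟩ := Finset.exists_subset_card_eq (show w + 1 ≤ s.card by omega)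
      exact hw t ⟨hs.subset (by exact_mod_cast hts), htc⟩
  have hHIT : S_HIT := hit red l1 ram phi2 piv chd
  obtain ⟨f, hf1, hf2⟩ := fin_core hHIT k V (Fin n) par rk G w Finset.univ B hgood
  have hcolor : G.Colorable (FF k w) :=
    ⟨SimpleGraph.Coloring.mk (fun v => (⟨f v, hf1 v (Finset.mem_univ v)⟩ : Fin _)) (by
      intro u v huv heq
      exact hf2 u (Finset.mem_univ u) v (Finset.mem_univ v) huv (by
        simpa using congrArg Fin.val heq))⟩
  refine hcolor.mono ?_
  rw [← ex_eq]
  exact FF_le k w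

/-- A graph, finite or infinite, whose finite induced subgraphs have induced matching treewidth
at most `k`. -/
theorem colorable_infinite {V : Type} (G : SimpleGraph V) (k w : ℕ)
    (hw : G.CliqueFree (w + 1))
    (h : ∀ A : Set V, A.Finite → TreeMuLE (G.induce A) k) :
    G.Colorable ((w + 1) ^ (k * (3 * k + 7) / 2)) := by
  classical
  set m := (w + 1) ^ (k * (3 * k + 7) / 2) with hm
  refine SimpleGraph.nonempty_hom_of_forall_finite_subgraph_hom
    (F := (⊤ : SimpleGraph (Fin m))) fun G' hG' => ?_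
  have h1 : (G.induce G'.verts).Colorable m := by
    haveI : Finite G'.verts := hG'
    exact colorable _ k w (hw.comap ⟨(SimpleGraph.Embedding.induce G'.verts).toCopy⟩) (h _ hG')
  have c := h1.some
  refine ⟨fun x => c x, ?_⟩
  intro x y hxy
  exact c.valid (by
    rw [SimpleGraph.Subgraph.coe_adj] at hxy
    exact hxy.adj_sub)

end Pool.Agent.KS6_36.TMU
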